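import Pool.Agent.Lib.helper10.Occ3

namespace Pool.Agent.Results.MP_75fd85_lc.NPHard

open Pool.Agent.Cx Pool.Agent.Cx.Oc List Relation

/-- any two vertices of `A` are joined by a path inside `A` -/
def Con {V : Type} (r : V → V → Prop) (A : V → Prop) : Prop :=
  ∀ a b, A a → A b → ReflTransGen (fun x y => r x y ∧ A x ∧ A y) a b

/-- `uv` is a chord of the cycle made of the path `P` from `s` to `t` and the edge `ts` -/
def Chord {V : Type} (r : V → V → Prop) (s t : V) (P : List V) (u v : V) : Prop :=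
  u ∈ P ∧ v ∈ P ∧ r u v ∧ ¬ [u, v] <:+: P ∧ ¬ [v, u] <:+: P ∧ s(u, v) ≠ s(s, t)

/-- some cycle through the edge `st` of length at most `k` has exactly one bridge -/
def Short {V : Type} (G : SimpleGraph V) (s t : V) (k : ℕ) : Prop :=
  ∃ P : List V, P.Nodup ∧ P.head? = some s ∧ P.getLast? = some t ∧ P.IsChain G.Adj ∧ 3 ≤ P.length ∧
    P.length ≤ k ∧ (((∀ u v, ¬ Chord G.Adj s t P u v) ∧ (∃ v, v ∉ P) ∧ Con G.Adj (· ∉ P)) ∨
      ((∀ v, v ∈ P) ∧ ∃! e : Sym2 V, ∃ u v, e = s(u, v) ∧ Chord G.Adj s t P u v))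

/-- instances `(M, (s, t), k)`: a 3-connected graph, an edge, and a short induced nonseparating cycle -/
def INC (z : List (List Bool) × (ℕ × ℕ) × ℕ) : Prop :=
  IsGraph z.1 ∧ 4 ≤ z.1.length ∧ (∀ a b, Con (graphOf z.1).Adj fun v => v ≠ a ∧ v ≠ b) ∧
    ∃ s t : Fin z.1.length, s.1 = z.2.1.1 ∧ t.1 = z.2.1.2 ∧ (graphOf z.1).Adj s t ∧ Short (graphOf z.1) s t z.2.2

abbrev Id := ℕ × ℕ × ℕ

def nv (φ : F) : ℕ := (φ.map fun c => c.1.1 + c.2.1.1 + c.2.2.1).sum + 1
def tg (φ : F) (o : ℕ) : ℕ := if (lit φ o).2 = true then 3 else 4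
def ol (φ : F) (o : ℕ) (y : Id) : Prop := y.2.2 = (lit φ o).1 ∧ y.1 = tg φ o
def ok (φ : F) (x : Id) : Prop := (x.1 < 2 ∧ x.2.1 = 0 ∧ x.2.2 = 0) ∨ (x.1 = 2 ∧ x.2.1 ≤ φ.length ∧ x.2.2 = 0) ∨
  (3 ≤ x.1 ∧ x.1 ≤ 4 ∧ x.2.1 ≤ φ.length + 1 ∧ x.2.2 ≤ nv φ ∧ (x.2.1 = 0 → x.2.2 < nv φ))
def fd (φ : F) (x y : Id) : Prop := (x.1 = 0 ∧ y.1 = 1) ∨ (x.1 < 2 ∧ y.1 = 2) ∨ (3 ≤ y.1 ∧ ((x.1 = 0 ∧ y.2.2 = 0) ∨
  (x.1 = 1 ∧ (y.2.2 = nv φ ∨ (y.2.1 = 0 ∧ y.2.2 + 1 = nv φ))) ∨ (3 ≤ x.1 ∧ x.2.1 = y.2.1 ∧ y.2.2 = x.2.2 + 1) ∨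
  (x.1 = 2 ∧ y.2.1 = x.2.1 + 1 ∧ y.2.2 = 0) ∨ (x.1 = 2 ∧ y.2.1 = 0 ∧ ((x.2.1 = φ.length ∧ y.2.2 = 0) ∨
    ol φ (3 * x.2.1) y ∨ ol φ (3 * x.2.1 + 1) y ∨ ol φ (3 * x.2.1 + 2) y))))
def fr (φ : F) (x y : Id) : Prop := fd φ x y ∨ fd φ y x
instance (φ : F) : DecidablePred (ok φ) := fun _ => by unfold ok; infer_instance
instance (φ : F) (o : ℕ) : DecidablePred (ol φ o) := fun _ => by unfold ol; infer_instance
instance (φ : F) : DecidableRel (fd φ) := fun _ _ => by unfold fd; infer_instance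
instance (φ : F) : DecidableRel (fr φ) := fun _ _ => by unfold fr; infer_instance
def ids (φ : F) : List Id := (0, 0, 0) :: (1, 0, 0) :: (2, 0, 0) :: (3, 0, 0) ::
  (range 5 ×ˢ range (φ.length + 2) ×ˢ range (nv φ + 1)).filter fun x => decide (ok φ x ∧ ¬ x.1 + 4 * x.2.1 + 4 * x.2.2 < 4)
def red (φ : F) : List (List Bool) × (ℕ × ℕ) × ℕ :=
  (mat (ids φ) fun x y => decide (fr φ x y), (0, 1), nv φ + 2)

lemma red_pt : PT red := by
  have b0 : PT nv := by unfold nv; fun_prop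
  have b1 : PT fun φ => (range 5 ×ˢ range (φ.length + 2) ×ˢ range (nv φ + 1)).filter fun x =>
      decide (ok φ x ∧ ¬ x.1 + 4 * x.2.1 + 4 * x.2.2 < 4) :=
    PT.filter (PP.decide (by simp only [ok, imp_iff_not_or]; fun_prop)) (by fun_prop)
  have b2 : PT fun z : F × ℕ => tg z.1 z.2 := PP.ite (by fun_prop) (by fun_prop) (by fun_prop)
  have b3 : PT ids := by unfold ids; fun_prop
  refine PT.pair (PT.mat b3 (PP.decide ?_)) (by fun_prop)
  unfold fr fd ol; fun_prop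

variable {φ : F}

lemma mem_ids {x : Id} : x ∈ ids φ ↔ ok φ x := by
  obtain ⟨a, b, c⟩ := x
  have : 0 < nv φ := Nat.succ_pos _
  simp only [ids, mem_cons, Prod.mk.injEq, mem_filter, mem_product, mem_range, decide_eq_true_eq, ok]
  omega

lemma lt_nv (o : ℕ) : (lit φ o).1 < nv φ := by
  by_cases h : o / 3 < φ.length
  · have := single_le_sum (l := φ.map fun c => c.1.1 + c.2.1.1 + c.2.2.1) (by simp) _ (mem_map_of_mem (getElem_mem h))
    simp only [lit, getD_eq_getElem _ _ h, nv]; split_ifs <;> omega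
  · simp [lit, getElem?_eq_none (not_lt.1 h), nv]

lemma tg3 (o : ℕ) : tg φ o = 3 ∨ tg φ o = 4 := by unfold tg; split_ifs <;> simp

lemma con {A : Id → Prop} {z : Id} (h : ∀ x, A x → ReflTransGen (fun x y => fr φ x y ∧ A x ∧ A y) x z) :
    Con (fr φ) A := fun a b p q => (h a p).trans
  (ReflTransGen.mono (fun _ _ e => ⟨e.1.symm, e.2.2, e.2.1⟩) _ _ (h b q).swap)

lemma root {A : Id → Prop} (w : ℕ → ℕ → ℕ) (h0 : ∀ x, A x → ok φ x ∧ 2 ≤ x.1) (h1 : ∀ c ≤ φ.length, A (2, c, 0))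
    (h2 : ∀ q j, ok φ (3, q, j) → 3 ≤ w q j ∧ A (w q j, q, j))
    (h3 : ∀ c < φ.length, ∃ i < 3, A (tg φ (3 * c + i), 0, (lit φ (3 * c + i)).1)) : Con (fr φ) A := by
  have d : ∀ q j b, 3 ≤ b → A (b, q, j) → ReflTransGen (fun x y => fr φ x y ∧ A x ∧ A y) (b, q, j)
      (2, if q = 0 then φ.length else q - 1, 0) := fun q j => by
    induction j with
    | zero =>
      intro b l a
      have := (h0 _ a).1
      refine .single ⟨Or.inr ?_, a, h1 _ ?_⟩ <;> simp only [ok, fd] at this ⊢ <;> split_ifs <;> simp <;> omega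
    | succ j ih =>
      intro b l a
      have := (h0 _ a).1
      obtain ⟨x, y⟩ := h2 q j (by simp only [ok] at this ⊢; omega)
      exact .head ⟨Or.inr (by simp [fd, l, x]), a, y⟩ (ih _ x y)
  have e : ∀ c ≤ φ.length, ReflTransGen (fun x y => fr φ x y ∧ A x ∧ A y) (2, c, 0) (2, φ.length, 0) := fun c l => by
    rcases l.eq_or_lt with rfl | l'
    · rfl
    · obtain ⟨i, a, b⟩ := h3 c l'
      have := tg3 (φ := φ) (3 * c + i)
      refine .head ⟨Or.inl ?_, h1 c l, b⟩ (d 0 _ _ (by omega) b)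
      interval_cases i <;> simp [fd, ol] at this ⊢ <;> omega
  refine con (z := (2, φ.length, 0)) ?_
  rintro ⟨b, q, j⟩ a
  have := h0 _ a
  simp only [ok] at this
  by_cases l : 3 ≤ b
  · exact (d q j b l a).trans (e _ (by split_ifs <;> omega))
  · obtain ⟨rfl, rfl⟩ : b = 2 ∧ j = 0 := by omega
    exact e q (by omega)

lemma three (a b : Id) : Con (fr φ) fun v => ok φ v ∧ v ≠ a ∧ v ≠ b := by
  obtain ⟨A, hA⟩ : ∃ A : Id → Prop, A = fun v => ok φ v ∧ v ≠ a ∧ v ≠ b := ⟨_, rfl⟩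
  have k : ∀ q j, ok φ (3, q, j) → (∃ c, 3 ≤ c ∧ A (c, q, j)) ∨ (3 ≤ a.1 ∧ 3 ≤ b.1 ∧ a.2.2 = j) := fun q j o => by
    have : ok φ (4, q, j) := by simp only [ok] at o ⊢; omega
    by_cases x : A (3, q, j)
    · exact Or.inl ⟨3, le_rfl, x⟩
    by_cases y : A (4, q, j)
    · exact Or.inl ⟨4, by simp, y⟩
    simp only [hA, o, this, true_and, not_and_or, not_not] at x y
    right; rcases x with rfl | rfl <;> rcases y with y | y <;> first | (subst y; simp) | simp at y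
  have o1 : ∀ x, A x → ok φ x := fun x h => by rw [hA] at h; exact h.1
  have L : A (0, 0, 0) → ∀ q j c, 3 ≤ c → A (c, q, j) → ReflTransGen (fun x y => fr φ x y ∧ A x ∧ A y) (c, q, j)
      (0, 0, 0) ∨ (3 ≤ a.1 ∧ 3 ≤ b.1 ∧ a.2.2 < j) := fun s q j => by
    induction j with
    | zero => exact fun c l x => Or.inl (.single ⟨Or.inr (by simp [fd, l]), x, s⟩)
    | succ j ih =>
      intro c l x
      have := o1 _ x
      rcases k q j (by simp only [ok] at this ⊢; omega) with ⟨d, y, z⟩ | e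
      · exact (ih d y z).imp (.head ⟨Or.inr (by simp [fd, l, y]), x, z⟩) (by omega)
      · omega
  have R : A (1, 0, 0) → ∀ q n j c, j + n = nv φ → 3 ≤ c → A (c, q, j) →
      ReflTransGen (fun x y => fr φ x y ∧ A x ∧ A y) (c, q, j) (1, 0, 0) ∨ (3 ≤ a.1 ∧ 3 ≤ b.1 ∧ j < a.2.2) :=
    fun s q n => by
    induction n with
    | zero => exact fun j c e l x => Or.inl (.single ⟨Or.inr (by simp [fd, l, ← e]), x, s⟩)
    | succ n ih =>
      intro j c e l x
      have := o1 _ x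
      by_cases z : q = 0 ∧ n = 0
      · exact Or.inl (.single ⟨Or.inr (by simp [fd, l, ← e, z]), x, s⟩)
      rcases k q (j + 1) (by simp only [ok] at this ⊢; omega) with ⟨d, y, z⟩ | e
      · exact (ih _ d (by omega) y z).imp (.head ⟨Or.inl (by simp [fd, l, y]), x, z⟩) (by omega)
      · omega
  have n : ∀ t < 2, ¬ A (t, 0, 0) → a = (t, 0, 0) ∨ b = (t, 0, 0) := fun t l x => by
    simp only [hA, show ok φ (t, 0, 0) by simp [ok, l], true_and, not_and_or, not_not] at x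
    exact x.imp .symm .symm
  rw [← hA]
  by_cases s : A (0, 0, 0)
  · refine con (z := (0, 0, 0)) ?_
    rintro ⟨c, q, j⟩ x
    have o := o1 _ x
    simp only [ok] at o
    by_cases l : 3 ≤ c
    · refine (L s q j c l x).elim id fun e => ?_
      have t : A (1, 0, 0) := by_contra fun t => by rcases n 1 (by simp) t with rfl | rfl <;> simp at e
      exact ((R t q (nv φ - j) j c (by omega) l x).resolve_right (by omega)).tail ⟨Or.inr (by simp [fd]), t, s⟩
    · by_cases z : c = 0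
      · obtain ⟨rfl, rfl, rfl⟩ : c = 0 ∧ q = 0 ∧ j = 0 := by omega
        rfl
      · exact .single ⟨Or.inr (by simp [fd]; omega), x, s⟩
  by_cases t : A (1, 0, 0)
  · refine con (z := (1, 0, 0)) ?_
    rintro ⟨c, q, j⟩ x
    have o := o1 _ x
    simp only [ok] at o
    by_cases l : 3 ≤ c
    · exact (R t q (nv φ - j) j c (by omega) l x).resolve_right fun e => by
        rcases n 0 (by simp) s with rfl | rfl <;> simp at e
    · by_cases z : c = 1
      · obtain ⟨rfl, rfl, rfl⟩ : c = 1 ∧ q = 0 ∧ j = 0 := by omega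
        rfl
      · exact .single ⟨by simp [fr, fd]; omega, x, t⟩
  · have g : ∀ x, ok φ x → 2 ≤ x.1 → A x := fun x o l => by
      have x := (n 0 (by simp) s).imp (congrArg (·.1)) (congrArg (·.1))
      have y := (n 1 (by simp) t).imp (congrArg (·.1)) (congrArg (·.1))
      rw [hA]
      refine ⟨o, ?_, ?_⟩ <;> rintro rfl <;> dsimp only at x y <;> omega
    refine root (fun _ _ => 3) (fun ⟨c, q, j⟩ x => ⟨o1 _ x, by_contra fun l => ?_⟩)
      (fun c l => g _ (by simp [ok, l]) le_rfl) (fun q j o => ⟨le_rfl, g _ o (by simp)⟩) fun c l => ⟨0, by simp, ?_⟩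
    · have o := o1 _ x
      simp only [ok] at o l
      obtain ⟨rfl | rfl, rfl, rfl⟩ : (c = 0 ∨ c = 1) ∧ q = 0 ∧ j = 0 := by omega
      exacts [s x, t x]
    · have := tg3 (φ := φ) (3 * c + 0)
      have := lt_nv (φ := φ) (3 * c + 0)
      exact g _ (by simp only [ok]; omega) (by omega)

lemma fw (h : Sat3 φ) : ∃ Q : List Id, (∀ x ∈ Q, ok φ x) ∧ Q.Nodup ∧ Q.head? = some (0, 0, 0) ∧
    Q.getLast? = some (1, 0, 0) ∧ Q.IsChain (fr φ) ∧ Q.length = nv φ + 2 ∧ (2, 0, 0) ∉ Q ∧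
    (∀ u v, ¬ Chord (fr φ) (0, 0, 0) (1, 0, 0) Q u v) ∧ Con (fr φ) fun v => ok φ v ∧ v ∉ Q := by
  obtain ⟨τ, h⟩ := h
  obtain ⟨w, hw⟩ : ∃ w : ℕ → ℕ, ∀ v, w v = if τ v = true then 4 else 3 := ⟨_, fun _ => rfl⟩
  have w1 : ∀ v, w v = 3 ∨ w v = 4 := fun v => by rw [hw]; split_ifs <;> simp
  obtain ⟨q, hq⟩ : ∃ q : ℕ → Id, ∀ j, q j = if j = 0 then (0, 0, 0) else if j = nv φ + 1 then (1, 0, 0) else
    (w (j - 1), 0, j - 1) := ⟨_, fun _ => rfl⟩
  have n0 : 0 < nv φ := Nat.succ_pos _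
  have m : ∀ x ∈ (range (nv φ + 2)).map q, ok φ x ∧ x.2.1 = 0 ∧ (x.1 < 2 ∨ x.1 = w x.2.2) := by
    simp only [forall_mem_map, mem_range, hq, ok]
    intro j l
    have := w1 (j - 1)
    split_ifs <;> simp <;> omega
  have i : ∀ n j, j + 1 < n → [j, j + 1] <:+: range n := fun n j l => by
    induction n with
    | zero => omega
    | succ n ih =>
      rcases (Nat.lt_succ_iff.1 l).eq_or_lt with rfl | l
      · exact ⟨range j, [], by simp [range_succ]⟩
      · rw [range_succ]; exact (ih l).trans (prefix_append _ _).isInfix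
  have c : ∀ a < nv φ + 2, ∀ b < nv φ + 2, fd φ (q a) (q b) → b = a + 1 ∨ (a = b + 1 ∧ a = nv φ + 1) ∨
      (a = 0 ∧ b = nv φ + 1) := fun a x b y e => by
    have := w1 (a - 1)
    have := w1 (b - 1)
    simp only [hq, fd] at e
    split_ifs at e <;> simp at e <;> omega
  refine ⟨(range (nv φ + 2)).map q, fun x e => (m x e).1, nodup_range.map_on fun a _ b _ e => ?_,
    by simp [range_succ_eq_map, hq], by simp [range_succ, hq], ?_, by simp, fun e => ?_, ?_,
    root (fun q j => if q = 0 then 7 - w j else 3) (fun ⟨b, p, j⟩ x => ⟨x.1, by_contra fun l => x.2 ?_⟩)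
      (fun c l => ⟨by simp [ok, l], fun e => ?_⟩) (fun p j o => ?_) fun c l => ?_⟩
  · have := w1 (a - 1)
    have := w1 (b - 1)
    simp only [hq] at e
    split_ifs at e <;> simp at e <;> omega
  · refine (isChain_map _).2 ((isChain_range_succ _ _).2 fun j l => ?_)
    have := w1 (j - 1)
    have := w1 j
    by_cases a : j = 0
    · exact Or.inl (by rw [hq, hq, if_pos a, if_neg (by omega), if_neg (by omega)]; simp [fd]; omega)
    by_cases b : j = nv φ
    · exact Or.inr (by rw [hq, hq, if_neg a, if_neg (by omega), if_pos (by omega), if_neg (by omega)]; simp [fd]; omega)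
    · exact Or.inl (by rw [hq, hq, if_neg a, if_neg (by omega), if_neg (by omega), if_neg (by omega)]; simp [fd]; omega)
  · have := w1 0
    have := m _ e
    simp at this; omega
  · rintro _ _ ⟨x', y', e, r, s, t⟩
    obtain ⟨a, x, rfl⟩ := mem_map.1 x'
    obtain ⟨b, y, rfl⟩ := mem_map.1 y'
    rw [mem_range] at x y
    rcases e with e | e
    · rcases c a x b y e with rfl | ⟨rfl, -⟩ | ⟨rfl, rfl⟩
      exacts [r ((i _ _ y).map q), s ((i _ _ x).map q), t (by simp [hq])]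
    · rcases c b y a x e with rfl | ⟨rfl, -⟩ | ⟨rfl, rfl⟩
      exacts [s ((i _ _ x).map q), r ((i _ _ y).map q), t (by simp [hq])]
  · have o := x.1
    simp only [ok] at o l
    obtain ⟨rfl | rfl, rfl, rfl⟩ : (b = 0 ∨ b = 1) ∧ p = 0 ∧ j = 0 := by omega
    · exact mem_map.2 ⟨0, by simp, by simp [hq]⟩
    · exact mem_map.2 ⟨nv φ + 1, by simp, by simp [hq]⟩
  · have := w1 0
    have := m _ e
    simp at this; omega
  · have := w1 j
    refine ⟨by split_ifs <;> omega, by simp only [ok] at o ⊢; split_ifs <;> omega, fun e => ?_⟩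
    have := (m _ e).2
    dsimp only at this
    split_ifs at this <;> omega
  · have : ∃ i < 3, τ (lit φ (3 * c + i)).1 = (lit φ (3 * c + i)).2 := by
      rcases h φ[c] (getElem_mem _) with e | e | e
      · exact ⟨0, by simp, by simpa [lit, l] using e⟩
      · exact ⟨1, by simp, by simpa [lit, l, Nat.mul_add_div] using e⟩
      · exact ⟨2, by simp, by simpa [lit, l, Nat.mul_add_div] using e⟩
    obtain ⟨i, a, b⟩ := this
    have := tg3 (φ := φ) (3 * c + i)
    have := lt_nv (φ := φ) (3 * c + i)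
    refine ⟨i, a, by simp only [ok]; omega, fun e => ?_⟩
    have := (m _ e).2.2
    simp only [hw, tg, b] at this
    split_ifs at this <;> omega

lemma hd {α : Type} {s v : α} {l : List α} (n : (s :: l).Nodup) :
    ¬ [v, s] <:+: s :: l ∧ ([s, v] <:+: s :: l → l.head? = some v) := by
  constructor <;> rintro ⟨_ | ⟨a, p⟩, q, e⟩ <;> simp at e
  · simp [← e.2] at n
  · simp [← e.2] at n
  · simp [← e]
  · simp [← e.2] at n

lemma bw {l : List Id} (o : ∀ x ∈ (0, 0, 0) :: l, ok φ x) (n : ((0, 0, 0) :: l).Nodup)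
    (t : ((0, 0, 0) :: l).getLast? = some (1, 0, 0)) (c : ((0, 0, 0) :: l).IsChain (fr φ)) (l1 : 2 ≤ l.length)
    (l2 : l.length ≤ nv φ + 1) (h : ∀ u v, ¬ Chord (fr φ) (0, 0, 0) (1, 0, 0) ((0, 0, 0) :: l) u v)
    (k : Con (fr φ) fun v => ok φ v ∧ v ∉ (0, 0, 0) :: l) : Sat3 φ := by
  classical
  obtain ⟨p, e⟩ := getLast?_eq_some_iff.1 t
  have t1 : (1, 0, 0) ∈ (0, 0, 0) :: l := mem_of_getLast? t
  have la : ∀ p q : List Id, (0, 0, 0) :: l = p ++ (1, 0, 0) :: q → q = [] := fun p q e' => by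
    rw [e'] at n t
    rcases q.eq_nil_or_concat' with rfl | ⟨q, z, rfl⟩
    · rfl
    · obtain rfl : z = (1, 0, 0) := by
        rw [← cons_append, ← append_assoc, getLast?_concat] at t; exact Option.some.inj t
      simp [nodup_append] at n
  have iv : ∀ (T : Id → Prop) a b, ok φ a ∧ a ∉ (0, 0, 0) :: l → ok φ b ∧ b ∉ (0, 0, 0) :: l → T a →
      (∀ x y, T x → ok φ x → ok φ y → y ∉ (0, 0, 0) :: l → fr φ x y → T y) → T b := fun T a b x y z w => by
    have := k a b x y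
    clear y
    induction this with
    | refl => exact z
    | tail _ e ih => exact w _ _ ih e.2.1.1 e.2.2.1 e.2.2.2 e.1
  have st : ∀ y, ok φ y → y ∉ (0, 0, 0) :: l → 2 ≤ y.1 := fun ⟨a, b, c⟩ x y => by_contra fun z => by
    simp only [ok] at x z
    obtain ⟨rfl | rfl, rfl, rfl⟩ : (a = 0 ∨ a = 1) ∧ b = 0 ∧ c = 0 := by omega
    exacts [y (by simp), y t1]
  have n0 : 0 < nv φ := Nat.succ_pos _
  have nc : ∀ d, (2, d, 0) ∉ (0, 0, 0) :: l := fun d m => by
    have a := h (0, 0, 0) (2, d, 0)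
    have b := h (1, 0, 0) (2, d, 0)
    simp only [Chord, m, t1, mem_cons_self, (hd n).1, fr, fd, not_and_or, not_not] at a b
    obtain ⟨l', rfl⟩ := head?_eq_some_iff.1 ((hd n).2 (by simpa using a))
    obtain rfl : l' = [(1, 0, 0)] := by
      obtain ⟨x, y, z⟩ | ⟨x, y, z⟩ : [(1, 0, 0), (2, d, 0)] <:+: _ ∨ [(2, d, 0), (1, 0, 0)] <:+: _ := by simpa using b
      · simpa using la x ((2, d, 0) :: y) (by simp [← z])
      · obtain rfl := la (x ++ [(2, d, 0)]) y (by simp [← z])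
        rcases x with _ | ⟨_, _ | ⟨_, x⟩⟩ <;> simp at z
        · exact z.2.symm
        · simp [← z.2.2] at n
    have := o _ m
    have := iv (fun x => 3 ≤ x.1 ∧ x.2.1 = d + 1) (3, d + 1, 0) (3, 0, 0) (by simp [ok] at this ⊢; omega)
      (by simp [ok, n0]) (by simp) fun ⟨a, b, c⟩ ⟨a', b', c'⟩ x y z w e => by
        have := st _ z w
        simp [fr, fd, ok] at x y z w e this ⊢; omega
    simp at this
  have hit : ∀ v < nv φ, (3, 0, v) ∉ (0, 0, 0) :: l → (4, 0, v) ∈ (0, 0, 0) :: l := fun v x y => by_contra fun z => by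
    obtain ⟨g, hg⟩ : ∃ g : Id → ℕ, ∀ x, g x = if x.1 = 0 then 0 else if x.1 = 1 then nv φ + 2 else
      if x.2.1 = 0 then (if x.2.2 < v then 0 else nv φ + 2) else x.2.2 + 1 := ⟨_, fun _ => rfl⟩
    have a : ((0, 0, 0) :: l).IsChain fun a b => g b ≤ g a + 1 :=
      isChain_iff_forall_rel_of_append_cons_cons.2 fun ⟨a, b, c'⟩ ⟨a', b', c''⟩ p q e => by
        have r := isChain_iff_forall_rel_of_append_cons_cons.1 c e
        have m1 : (a, b, c') ∈ (0, 0, 0) :: l := by simp [e]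
        have m2 : (a', b', c'') ∈ (0, 0, 0) :: l := by simp [e]
        have o1 := o _ m1
        have o2 := o _ m2
        have : ¬ (a = 2 ∧ c' = 0) := fun ⟨x, y⟩ => nc b (x ▸ y ▸ m1)
        have : ¬ (a' = 2 ∧ c'' = 0) := fun ⟨x, y⟩ => nc b' (x ▸ y ▸ m2)
        have : ¬ (a' = 3 ∧ b' = 0 ∧ c'' = v) := fun ⟨x, y', w⟩ => y (by rwa [x, y', w] at m2)
        have : ¬ (a' = 4 ∧ b' = 0 ∧ c'' = v) := fun ⟨x, y', w⟩ => z (by rwa [x, y', w] at m2)
        have : ¬ (a = 0 ∧ b = 0 ∧ c' = 0 ∧ a' = 1 ∧ b' = 0 ∧ c'' = 0) := by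
          rintro ⟨rfl, rfl, rfl, rfl, rfl, rfl⟩
          obtain rfl := la (p ++ [(0, 0, 0)]) q (by simp [e])
          rcases p with _ | ⟨_, p⟩ <;> simp at e
          · simp [e] at l1
          · simp [e.2] at n
        simp only [ok] at o1 o2
        have a2 : a ≠ 2 := by omega
        have a3 : a' ≠ 2 := by omega
        simp only [fr, fd, a2, a3, false_and, and_false, or_false, false_or] at o1 o2 r
        simp only [hg]
        rcases r with (r | ⟨_, r | r | r⟩) | r | ⟨_, r | r | r⟩ <;> split_ifs <;> omega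
    have b : ∀ (l : List Id) a b, (a :: l).IsChain (fun a b => g b ≤ g a + 1) → (a :: l).getLast? = some b →
        g b ≤ g a + l.length := fun l => by
      induction l with
      | nil => intro a b _ e; simp at e; simp [e]
      | cons x l ih =>
        intro a b p e
        have := ih x b (isChain_cons_cons.1 p).2 (by simpa using e)
        have := (isChain_cons_cons.1 p).1
        simp; omega
    have := b _ _ _ a t
    simp [hg] at this; omega
  refine ⟨fun v => decide ((3, 0, v) ∉ (0, 0, 0) :: l), fun cl m => ?_⟩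
  obtain ⟨d, hd, rfl⟩ := getElem_of_mem m
  have : ∃ i < 3, (tg φ (3 * d + i), 0, (lit φ (3 * d + i)).1) ∉ (0, 0, 0) :: l := by
    by_contra! z
    have := iv (fun x => (x.1 = 2 ∧ x.2.1 = d) ∨ (3 ≤ x.1 ∧ x.2.1 = d + 1)) (2, d, 0) (2, φ.length, 0)
      ⟨by simp [ok, hd.le], nc _⟩ ⟨by simp [ok], nc _⟩ (by simp) fun ⟨a, b, c⟩ ⟨a', b', c'⟩ x y u w e => by
        have := st _ u w
        have q : ∀ i < 3, ¬ (b' = 0 ∧ c' = (lit φ (3 * d + i)).1 ∧ a' = tg φ (3 * d + i)) := fun i p ⟨x, y, u⟩ =>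
          w (by rw [x, y, u]; exact z i p)
        have q0 := q 0 (by simp)
        have := q 1 (by simp)
        have := q 2 (by simp)
        dsimp only at x
        rcases x with ⟨rfl, rfl⟩ | ⟨x, rfl⟩ <;> simp only [fr, fd, ok, ol, add_zero] at * <;> omega
    simp at this; omega
  obtain ⟨i, a, b⟩ := this
  have : decide ((3, 0, (lit φ (3 * d + i)).1) ∉ (0, 0, 0) :: l) = (lit φ (3 * d + i)).2 := by
    cases q : (lit φ (3 * d + i)).2 <;> simp only [tg, q] at b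
    · exact decide_eq_false fun z => b (hit _ (lt_nv _) z)
    · exact decide_eq_true b
  interval_cases i <;> simp only [lit, Nat.mul_add_div, Nat.mul_add_mod, getD_eq_getElem _ _ hd, Nat.ofNat_pos,
    Nat.reduceDiv, Nat.reduceMod, add_zero, Nat.mul_mod_right, Nat.mul_div_cancel_left, if_true, if_false,
    one_ne_zero, OfNat.ofNat_ne_zero, OfNat.ofNat_ne_one] at this <;> simp only [this, true_or, or_true]

theorem result : NPHard (Lang INC) := by
  classical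
  refine (hard_sat3.red red_pt fun φ => ?_).npHard
  obtain ⟨h0, f, h1, h2, h3, h4⟩ := graph_kit (ids φ) (fr φ) (fun p q h => h.symm)
    (fun p h => by simp only [fr, fd, or_self] at h; omega)
    (by simp [ids, (nodup_range.product (nodup_range.product nodup_range)).filter]) (M := (red φ).1) rfl
  simp only [mem_ids] at h2
  have hf : ∀ a, ok φ (f a) := fun a => (h2 _).1 ⟨a, rfl⟩
  have l4 : 4 ≤ (red φ).1.length := by simp [red, ids]
  have f0 : f ⟨0, by omega⟩ = (0, 0, 0) := (Option.some.inj (h4 ⟨0, by omega⟩)).symm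
  have f1 : f ⟨1, by omega⟩ = (1, 0, 0) := (Option.some.inj (h4 ⟨1, by omega⟩)).symm
  have : Nonempty (Fin (red φ).1.length) := ⟨⟨0, by omega⟩⟩
  obtain ⟨g, g1, g2⟩ : ∃ g : Id → Fin (red φ).1.length, (∀ a, g (f a) = a) ∧ ∀ x, ok φ x → f (g x) = x :=
    ⟨_, Function.leftInverse_invFun h3, fun x o => Function.invFun_eq ((h2 x).2 o)⟩
  have tr : ∀ (A : _ → Prop) (B : Id → Prop), (∀ a, A a ↔ B (f a)) → Con (fr φ) (fun v => ok φ v ∧ B v) →
      Con (graphOf (red φ).1).Adj A := fun A B e k a b x y => by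
    simpa only [Function.onFun, g1] using ReflTransGen.lift (p := fun x y => (graphOf (red φ).1).Adj x y ∧ A x ∧ A y) g
      (fun u v ⟨p, q, r⟩ => ⟨(h1 _ _).2 (by rwa [g2 u q.1, g2 v r.1]), (e _).2 (by rw [g2 u q.1]; exact q.2),
        (e _).2 (by rw [g2 v r.1]; exact r.2)⟩) _ _ (k _ _ ⟨hf a, (e a).1 x⟩ ⟨hf b, (e b).1 y⟩)
  constructor
  · intro h
    obtain ⟨Q, a, b, c, d, e, l, m, n, k⟩ := fw h
    have mm : ∀ u, u ∈ Q.map g ↔ f u ∈ Q := fun u => ⟨fun x => by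
      obtain ⟨y, x', rfl⟩ := mem_map.1 x
      rwa [g2 y (a y x')], fun x => g1 u ▸ mem_map_of_mem x⟩
    refine ⟨h0, l4, fun a b => tr _ (fun v => v ≠ f a ∧ v ≠ f b) (by simp [h3.eq_iff]) (three _ _), ⟨0, by omega⟩,
      ⟨1, by omega⟩, rfl, rfl, (h1 _ _).2 (by simp [f0, f1, fr, fd]), Q.map g,
      b.map_on fun x p y q e => by rw [← g2 x (a x p), e, g2 y (a y q)], by simp [c, ← f0, g1], by simp [d, ← f1, g1],
      (isChain_map _).2 (e.imp_of_mem_imp fun u v p q r => (h1 _ _).2 (by rwa [g2 u (a u p), g2 v (a v q)])),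
      by simp [l, nv], by simp [l, red], Or.inl ⟨fun u v ⟨p, q, r, s, t, w⟩ => n (f u) (f v) ⟨(mm u).1 p, (mm v).1 q,
        (h1 _ _).1 r, fun x => s (by simpa [g1] using x.map g), fun x => t (by simpa [g1] using x.map g), ?_⟩,
      ⟨g (2, 0, 0), by rwa [mm, g2 _ (by simp [ok])]⟩, tr _ (· ∉ Q) (by simp [mm]) k⟩⟩
    simpa [← f0, ← f1, h3.eq_iff] using w
  · rintro ⟨-, -, -, ⟨_, s⟩, ⟨_, t⟩, rfl, rfl, -, P, a, b, c, d, l1, l2, h⟩
    obtain ⟨P, rfl⟩ := head?_eq_some_iff.1 b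
    have e : (⟨(red φ).2.1.1, s⟩ :: P).map f = (0, 0, 0) :: P.map f := congrArg (· :: _) f0
    have mm : ∀ u, f u ∈ (0, 0, 0) :: P.map f ↔ u ∈ ⟨(red φ).2.1.1, s⟩ :: P := fun u => by
      rw [← e, mem_map_of_injective h3]
    have ch : ∀ u v, Chord (fr φ) (0, 0, 0) (1, 0, 0) ((0, 0, 0) :: P.map f) (f u) (f v) → Chord (graphOf (red φ).1).Adj
        ⟨(red φ).2.1.1, s⟩ ⟨(red φ).2.1.2, t⟩ (⟨(red φ).2.1.1, s⟩ :: P) u v := fun u v ⟨p, q, r, x, y, w⟩ =>
      ⟨(mm u).1 p, (mm v).1 q, (h1 _ _).2 r, fun z => x (e ▸ z.map f), fun z => y (e ▸ z.map f), fun z => w (by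
        simpa [show f ⟨_, s⟩ = _ from f0, show f ⟨_, t⟩ = _ from f1] using congrArg (Sym2.map f) z)⟩
    have o : ∀ x ∈ (0, 0, 0) :: P.map f, ∃ a, f a = x := by rw [← e]; simp only [forall_mem_map]; exact fun a _ => ⟨a, rfl⟩
    have n := e ▸ a.map h3
    rcases h with ⟨h, -, k⟩ | ⟨h, _, -, k⟩
    · refine bw (fun x m => (h2 x).1 (o x m)) n (by rw [← e, getLast?_map, c]; exact congrArg some f1)
        (e ▸ (isChain_map _).2 (d.imp fun _ _ => (h1 _ _).1)) (by simpa using l1) (by simpa [red] using l2)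
        (fun u v x => ?_) fun u v x y => ?_
      · obtain ⟨u, rfl⟩ := o u x.1
        obtain ⟨v, rfl⟩ := o v x.2.1
        exact h u v (ch u v x)
      · obtain ⟨u, rfl⟩ := (h2 u).2 x.1
        obtain ⟨v, rfl⟩ := (h2 v).2 y.1
        exact ReflTransGen.lift f (fun p q ⟨r, x, y⟩ => ⟨(h1 _ _).1 r, ⟨hf p, (mm p).not.2 x⟩, hf q, (mm q).not.2 y⟩) _ _
          (k u v ((mm u).not.1 x.2) ((mm v).not.1 y.2))
    · have q : ∀ j, 2 ≤ j → j ≤ 4 → (P.map f).head? = some (j, 0, 0) ∨ s(g (0, 0, 0), g (j, 0, 0)) = _ := fun j x y => by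
        have z : ok φ (j, 0, 0) := by simp [ok, nv]; omega
        refine or_iff_not_imp_left.2 fun w => k _ ⟨_, _, rfl, ch _ _ ?_⟩
        have := (mm _).2 (h (g (j, 0, 0)))
        rw [g2 _ z] at this
        rw [g2 _ z, g2 _ (by simp [ok])]
        exact ⟨by simp, this, Or.inl (by simp [fd]; omega), fun u => w ((hd n).2 u), (hd n).1, by simp; omega⟩
      have r : ∀ i j, 2 ≤ i → i < j → j ≤ 4 → s(g (0, 0, 0), g (i, 0, 0)) ≠ s(g (0, 0, 0), g (j, 0, 0)) :=
        fun i j x y z e => by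
          have := congrArg f (Sym2.congr_right.1 e)
          rw [g2 _ (by simp [ok, nv]; omega), g2 _ (by simp [ok, nv]; omega)] at this
          simp at this; omega
      have := r 2 3
      have := r 2 4
      have := r 3 4
      have := q 2
      have := q 3
      have := q 4
      grind

end Pool.Agent.Results.MP_75fd85_lc.NPHard
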